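import Pool.Agent.P.MP_6b977f_mp.EB.AllE
import Pool.Agent.P.MP_6b977f_mp.EB.Fin
import Pool.Agent.P.MP_6b977f_mp.EB.EXB
import Pool.Agent.P.MP_6b977f_mp.EB.EXH
import Pool.Agent.P.MP_6b977f_mp.EB.ENUM

/-! A generic star-shaped table of class C1 is ergodic, and every Dirichlet eigenbasis has a
subsequence whose local weak limit is the monochromatic random wave. -/

namespace Pool.Agent.Results.MP_6b977f_mp.ErgodicBerry

open Pool.Agent.P.MP_6b977f_mp.EB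

theorem result : ∃ μ : RM, IsRMW μ ∧ (∀ ν : RM, IsRMW ν → ν = μ) ∧
    ∃ G : Set C1, IsGδ G ∧ Dense G ∧ ∀ p ∈ G, Ergodic' p.1.1 p.1.2 ∧
      (∃ lam u, Basis' (table p.1.1) lam u) ∧
      ∀ lam u, Basis' (table p.1.1) lam u → ∀ χ, Cut χ →
        ∃ s : ℕ → ℕ, StrictMono s ∧ LWL μ χ (table p.1.1) (lam ∘ s) (u ∘ s) := by
  obtain ⟨μ, h1, h2, G, h3, h4, h5⟩ :=
    fin_main a_rat a_uniq (a_bgen a_bst) a_bfin a_fam a_egen a_erg
  refine ⟨μ, h1, h2, G, h3, h4, fun p hp => ⟨(h5 p hp).1, ?_,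
    fun lam u hb χ hχ => ((h5 p hp).2 χ hχ).2 lam u hb⟩⟩
  obtain ⟨ho, hb, h0, -⟩ := a_tab _ (fin_cp p)
  exact t_exb t_enum (t_exh a_cla) a_op1 a_op2 a_op3 a_reg a_hb1 _ ho hb ⟨0, h0⟩

end Pool.Agent.Results.MP_6b977f_mp.ErgodicBerry
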