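import Pool.Agent.P.MP_6b977f_mp.QG.AllD
import Pool.Agent.P.MP_6b977f_mp.QG.Ex

/-! The random wave model at high energy for random quantum graphs without back-scattering. -/

namespace Pool.Agent.Results.MP_6b977f_mp.QuantumGraphWave

open Finset Pool.Agent.P.MP_6b977f_mp.QG
open scoped Classical

theorem result (d : ℕ) (c Λ R ε : ℝ) (hd : 3 ≤ d) (hc : 0 < c) (hε : 0 < ε) :
    ∃ N0 : ℕ, ∀ N : ℕ, N0 ≤ N → ∀ (m : ℕ) (σ : Fin N → Matrix (Fin d) (Fin d) ℝ) (L : Fin m → ℝ),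
      2 * m = d * N → (∀ v, NoBack c (σ v)) → (∀ e, 1 ≤ L e ∧ L e ≤ Λ) →
      (#(univ.filter fun g : Glue d N m => ¬ Dens σ L R ε g) : ℝ) ≤
        ε * Fintype.card (Glue d N m) :=
  a_DENS d c Λ R ε hd hc hε

end Pool.Agent.Results.MP_6b977f_mp.QuantumGraphWave
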