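import Pool.Agent.P.MP_6b977f_mp.RG.AllW

/-! Every bulk eigenvector of a random regular graph converges locally to the Gaussian wave. -/

namespace Pool.Agent.Results.MP_6b977f_mp.RegularWave

open Finset Pool.Agent.P.MP_6b977f_mp.LW
open scoped Classical

theorem result (d m : ℕ) (T : SimpleGraph (Fin m)) (κ R ε : ℝ) (hd : 3 ≤ d) (hT : Full d T)
    (hκ : 0 < κ) (hε : 0 < ε) :
    ∃ N0 : ℕ, ∀ N : ℕ, N0 ≤ N →
      (#((Reg d N).filter fun G => ¬ Berry d T κ R ε G) : ℝ) ≤ ε * #(Reg d N) :=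
  Pool.Agent.P.MP_6b977f_mp.RG.a_MAINU d m T κ R ε hd hT hκ hε

end Pool.Agent.Results.MP_6b977f_mp.RegularWave
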