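import Pool.Agent.P.MP_6b977f_mp.RB.All
import Pool.Agent.P.MP_6b977f_mp.RB.Fin

/-! Berry's random wave model holds along a subsequence of full density of every eigenbasis of the
square with a random Robin coefficient on one side. -/

namespace Pool.Agent.Results.MP_6b977f_mp.RobinBerry

open MeasureTheory Pool.Agent.P.MP_6b977f_mp Pool.Agent.P.MP_6b977f_mp.RB

theorem result : ∃ μ : EB.RM, EB.IsRMW μ ∧ (∀ μ' : EB.RM, EB.IsRMW μ' → μ' = μ) ∧
    ∀ c β : ℝ, 0 < c → 4 < β → ∀ ν : Measure ℝ, IsProbabilityMeasure ν → MemLp id 4 ν →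
      ∫ x, x ∂ν = 0 → ∫ x, x ^ 2 ∂ν = 1 → ∀ᵐ g ∂(Measure.infinitePi fun _ : ℕ => ν),
        (∃ lam u, RBasis (rho c β g) lam u) ∧ ∀ lam u, RBasis (rho c β g) lam u →
          ∃ s, FullDensity s ∧ ∀ χ, EB.Cut χ → EB.LWL μ χ sqr (lam ∘ s) (u ∘ s) :=
  fin_main a_SVL a_PA a_PB a_EXS a_BR a_BR2 a_LOW a_SH2 a_BLK a_CES a_CF

end Pool.Agent.Results.MP_6b977f_mp.RobinBerry
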